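import Pool.Agent.W894.HT.MDefs

/-! HM-QSTEP: eliminating one possible interior vertex, and scaling. -/

set_option autoImplicit false

namespace Pool.Agent.W800.HMQstep

open Pool.Agent.W894.HT

section
variable {N A : Type} [CommRing A]

theorem wfst (φ : N → N → A) (e v : N) (l : List N) (x : N) :
    (wtg (A := DualNumber A) (dlg φ v) e x l).fst = wtg φ e x l := by
  induction l generalizing x with
  | nil => simp [wtg, dlg]
  | cons u l ih =>
    simp only [wtg, TrivSqZeroExt.fst_mul, ih]
    congr 1
    simp [dlg]

theorem wsnd (φ : N → N → A) (e v : N) (l : List N) (x : N) :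
    ((l.permutations'Aux v).map fun l' => wtg φ e x l').sum =
      (wtg (A := DualNumber A) (dlg φ v) e x l).snd := by
  induction l generalizing x with
  | nil => simp [wtg, dlg]
  | cons u l ih =>
    rw [List.permutations'Aux, List.map_cons, List.sum_cons, List.map_map]
    have h1 : (List.map ((fun l' => wtg φ e x l') ∘ List.cons u) (l.permutations'Aux v)).sum =
        φ x u * ((l.permutations'Aux v).map fun l' => wtg φ e u l').sum := by
      rw [← List.sum_map_mul_left]
      rfl
    rw [h1, ih]
    have h2 : (dlg φ v x u).fst = φ x u := by simp [dlg]
    have h3 : (dlg φ v x u).snd = φ x v * φ v u := by simp [dlg]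
    simp only [wtg, TrivSqZeroExt.snd_mul, wfst, h2, h3, smul_eq_mul, MulOpposite.smul_eq_mul_unop,
      MulOpposite.unop_op]
    ring

theorem sum_flatMap' {α β : Type} (L : List α) (g : α → List β)
    (f : β → A) : ((L.flatMap g).map f).sum = (L.map fun a => ((g a).map f).sum).sum := by
  induction L with
  | nil => simp
  | cons a L ih => simp [List.flatMap_cons, ih]

theorem fst_sum' {α : Type} (L : List α) (f : α → DualNumber A) :
    (L.map f).sum.fst = (L.map fun a => (f a).fst).sum := by
  induction L with
  | nil => simp
  | cons a L ih => simp [ih]

theorem snd_sum' {α : Type} (L : List α) (f : α → DualNumber A) :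
    (L.map f).sum.snd = (L.map fun a => (f a).snd).sum := by
  induction L with
  | nil => simp
  | cons a L ih => simp [ih]

theorem len_le {V S l : List N} (hS : S ∈ V.sublists') (hl : l ∈ S.permutations') :
    l.length ≤ V.length := by
  rw [List.mem_sublists'] at hS
  rw [List.mem_permutations'] at hl
  rw [hl.length_eq]
  exact hS.length_le

theorem pow_inl (a b : A) (i j : ℕ) :
    ((TrivSqZeroExt.inl a : DualNumber A) ^ i * (TrivSqZeroExt.inl b : DualNumber A) ^ j)
      = TrivSqZeroExt.inl (a ^ i * b ^ j) := by
  rw [TrivSqZeroExt.inl_mul, TrivSqZeroExt.inl_pow, TrivSqZeroExt.inl_pow]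

end

theorem mainQ : S_QSTEP := by
  intro N A _ a b φ x e v V
  unfold PQ
  rw [List.sublists'_cons, List.map_append, List.sum_append, List.map_map, fst_sum', snd_sum',
    ← List.sum_map_mul_left, ← List.sum_map_mul_left]
  congr 1
  · apply congrArg List.sum
    apply List.map_congr_left
    intro S hS
    rw [fst_sum', ← List.sum_map_mul_left]
    apply congrArg List.sum
    apply List.map_congr_left
    intro l hl
    have h1 := len_le hS hl
    rw [pow_inl, TrivSqZeroExt.fst_mul, wfst, TrivSqZeroExt.fst_inl, List.length_cons,
      show V.length + 1 - l.length = (V.length - l.length) + 1 by omega, pow_succ]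
    ring
  · apply congrArg List.sum
    apply List.map_congr_left
    intro S hS
    rw [snd_sum', ← List.sum_map_mul_left]
    simp only [Function.comp_apply]
    rw [List.permutations', sum_flatMap']
    apply congrArg List.sum
    apply List.map_congr_left
    intro l hl
    have h1 := len_le hS hl
    rw [pow_inl, TrivSqZeroExt.snd_mul, TrivSqZeroExt.fst_inl, TrivSqZeroExt.snd_inl, ← wsnd]
    simp only [smul_eq_mul, smul_zero, add_zero]
    rw [← List.sum_map_mul_left, ← List.sum_map_mul_left]
    apply congrArg List.sum
    apply List.map_congr_left
    intro l' hl'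
    have h2 : l'.length = l.length + 1 := by
      have h3 : l' ∈ (v :: l).permutations' := by
        rw [List.permutations', List.mem_flatMap]
        exact ⟨l, List.mem_permutations'.2 (List.Perm.refl l), hl'⟩
      simpa using (List.mem_permutations'.1 h3).length_eq
    rw [h2, List.length_cons,
      show V.length + 1 - (l.length + 1) = V.length - l.length by omega, pow_succ]
    ring

section
variable {N A : Type} [CommRing A]

theorem sub_perm (F : List N → A) (hF : ∀ S S' : List N, S.Perm S' → F S = F S')
    {V V' : List N} (h : V.Perm V') :
    (V.sublists'.map F).sum = (V'.sublists'.map F).sum := by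
  induction h generalizing F with
  | nil => rfl
  | cons a _ ih =>
    rw [List.sublists'_cons, List.sublists'_cons, List.map_append, List.map_append,
      List.sum_append, List.sum_append, List.map_map, List.map_map, ih F hF,
      ih (F ∘ List.cons a) (fun S S' hS => hF _ _ (hS.cons a))]
  | swap a b l =>
    simp only [List.sublists'_cons, List.map_append, List.sum_append, List.map_map]
    have h1 : (l.sublists'.map (F ∘ List.cons b ∘ List.cons a)).sum =
        (l.sublists'.map (F ∘ List.cons a ∘ List.cons b)).sum := by
      apply congrArg List.sum
      apply List.map_congr_left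
      intro S _
      exact hF _ _ (List.Perm.swap a b S)
    rw [h1]
    ring
  | trans _ _ ih1 ih2 => rw [ih1 F hF, ih2 F hF]

theorem wtg_zero (φ : N → N → A) (e d : N) (hd : ∀ u, φ u d = 0) (l : List N) (x : N)
    (h : d ∈ l) : wtg φ e x l = 0 := by
  induction l generalizing x with
  | nil => simp at h
  | cons u l ih =>
    rw [wtg]
    rcases List.mem_cons.1 h with rfl | h
    · rw [hd, zero_mul]
    · rw [ih u h, mul_zero]

theorem PR_perm (r : A) (φ : N → N → A) (x e : N) {V V' : List N} (h : V.Perm V') :
    PR r φ x e V = PR r φ x e V' := by
  unfold PR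
  apply sub_perm _ _ h
  intro S S' hS
  exact (List.Perm.map _ hS.permutations').sum_eq

theorem wtg_scale (r : A) (L : ℕ) (g : N → N → A) (e : N) (l : List N) (x : N) :
    wtg (fun i j => r ^ L * g i j) e x l = (r ^ L) ^ (l.length + 1) * wtg g e x l := by
  induction l generalizing x with
  | nil => simp [wtg]
  | cons u l ih =>
    simp only [wtg, List.length_cons]
    rw [ih, pow_succ (r ^ L) (l.length + 1)]
    ring

end

theorem mainS : S_SCALE := by
  refine ⟨?_, ?_, ?_, ?_, ?_⟩
  · intro N A _ r L g x e V hr
    unfold PR
    rw [← List.sum_map_mul_left]
    apply congrArg List.sum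
    apply List.map_congr_left
    intro S _
    rw [← List.sum_map_mul_left]
    apply congrArg List.sum
    apply List.map_congr_left
    intro l _
    rw [wtg_scale, one_pow, one_mul]
    have h1 : r ^ l.length * (r ^ L) ^ (l.length + 1) = r ^ L := by
      have h2 : r ^ l.length * (r ^ L) ^ (l.length + 1) = (r ^ (L + 1)) ^ l.length * r ^ L := by
        rw [← pow_mul, ← pow_mul, ← pow_add, ← pow_add]
        congr 1
        ring
      rw [h2, hr, one_pow, one_mul]
    rw [← mul_assoc, h1]
  · intro N K _ a b φ x e V ha
    unfold PQ PR
    rw [← List.sum_map_mul_left]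
    apply congrArg List.sum
    apply List.map_congr_left
    intro S hS
    rw [← List.sum_map_mul_left]
    apply congrArg List.sum
    apply List.map_congr_left
    intro l hl
    have h1 := len_le hS hl
    have h2 : a ^ V.length = a ^ (V.length - l.length) * a ^ l.length := by
      rw [← pow_add, Nat.sub_add_cancel h1]
    rw [h2, div_pow]
    field_simp
  · intro N N' A _ r φ f x e V
    unfold PR
    rw [List.sublists'_map, List.map_map]
    apply congrArg List.sum
    apply List.map_congr_left
    intro S _
    simp only [Function.comp_apply]
    rw [← List.map_permutations', List.map_map]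
    apply congrArg List.sum
    apply List.map_congr_left
    intro l _
    simp only [Function.comp_apply, List.length_map]
    congr 1
    clear * -
    induction l generalizing x with
    | nil => rfl
    | cons u l ih => simp only [List.map_cons, wtg, ih]
  · intro N A _ r φ x e V V' h
    exact PR_perm r φ x e h
  · intro N A _ r φ x e V D hx hD
    rw [PR_perm r φ x e (List.perm_append_comm (l₁ := V) (l₂ := D))]
    induction D with
    | nil => rfl
    | cons d D ih =>
      rw [← ih (fun h => hx (List.mem_cons_of_mem d h))
        (fun d' hd' => hD d' (List.mem_cons_of_mem d hd'))]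
      unfold PR
      rw [List.cons_append, List.sublists'_cons, List.map_append, List.sum_append, List.map_map]
      have h1 : (List.map ((fun S : List N => (S.permutations'.map fun l =>
          r ^ l.length * wtg φ e x l).sum) ∘ List.cons d) (D ++ V).sublists').sum = 0 := by
        apply List.sum_eq_zero
        intro y hy
        rw [List.mem_map] at hy
        obtain ⟨S, _, rfl⟩ := hy
        simp only [Function.comp_apply]
        apply List.sum_eq_zero
        intro y hy
        rw [List.mem_map] at hy
        obtain ⟨l, hl, rfl⟩ := hy
        rw [List.mem_permutations'] at hl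
        rw [wtg_zero φ e d (fun u => (hD d (List.mem_cons_self) u).1) l x
          (hl.symm.subset (List.mem_cons_self)), mul_zero]
      rw [h1, add_zero]

end Pool.Agent.W800.HMQstep
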