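import Pool.Agent.W983.PL.Stm

/-! Project PC: discreteness from one orbit. -/

set_option autoImplicit false

namespace Pool.Agent.W800.PCDisc

open Pool.Agent.W983.PL

theorem disc : S_DISC := by
  intro G o ε hε h g hg
  refine ⟨{f : C(Circle, Circle) | dist (f (g.symm o)) o < ε}, ?_, ?_, ?_⟩
  · exact isOpen_lt ((continuous_eval_const (g.symm o)).dist continuous_const) continuous_const
  · show dist (g (g.symm o)) o < ε
    rw [Homeomorph.apply_symm_apply, dist_self]
    exact hε
  · intro f hf hU
    by_contra hne
    have h1 : f * g⁻¹ ≠ 1 := by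
      intro h2
      exact hne (mul_inv_eq_one.1 h2)
    have h3 := h (f * g⁻¹) (G.mul_mem hf (G.inv_mem hg)) h1
    have h4 : dist (f (g.symm o)) o < ε := hU
    have h5 : (f * g⁻¹) o = f (g.symm o) := rfl
    rw [h5] at h3
    linarith

end Pool.Agent.W800.PCDisc
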